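import Pool.Agent.Y916.Sl.Fin
import Pool.Agent.Y916.Sl.Lim

/-!
# Generalised logarithms of the points of a short window around an algebraic number, relative to the periods

For polynomials `F_a`, `q_a` the primitives `Φ_(a,j)` of `x^j dx / (q_a √F_a)`, `j < deg F_a - 1 + deg q_a`, are integrals
of the three kinds on the curve `C_a : y² = F_a(x)`, with logarithmic poles over the zeros of `q_a`. Up to constants they
are the components of the generalised logarithm of the point `R_x` of the generalised Jacobian `G_a` of `C_a` (an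
extension of the Jacobian by a torus of dimension `deg q_a`) defined by `(x, √F_a(x)) - ∞`. The constants `κ` of the
invariant differentials (`2 j + 2 < deg F_a + 2 deg q_a`) are the values of the primitives at `∞`. The theorem: for given
primitives, `κ` and further fixed constants (for instance the periods of `G = ∏ G_a`; `2πi` is one of them), which
generate a field of transcendence degree `ρ`, and for `τ` arbitrary numbers, a window `ξ + 1, …, ξ + H` around an
algebraic number `ξ` with `|ξ| ≥ (H + 2)^E`, of bounded degree and of height at most `|ξ|^A`, has at most `τ + 1 + ρ`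
exceptional points such that between the generalised logarithms of the points `R_x` over distinct points `x` of the
window which are not exceptional, along any paths, and the `log x`, there is no relation of degree at most `δ` over any
number field of degree at most `d`, the constants and the arbitrary numbers.

The proof: values of G-functions at algebraic points, Hilbert functions for the elimination of the constants. Parts by
helper333 (values), helper968 and helper737 (the integrals in the complex plane), on libraries by helper67, helper113,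
helper201, helper255, helper261, helper419, helper574, helper678, helper708, helper787, helper921, helper960; the bound
by a transcendence degree after helper118.
-/

set_option autoImplicit false

open Filter Topology Bornology

namespace Pool.Agent.Results.MP_4b482e_nt.AlgebraicWindows

/-- The indices `(a, j)`, `j < deg F_a - 1 + deg q_a`, of the differentials. -/
abbrev Idx {s : ℕ} (F q : Fin s → Polynomial ℤ) : Type := Σ a, Fin ((F a).natDegree - 1 + (q a).natDegree)

/-- The plane without the disc of radius `R` and the ray `- u [0, ∞)`. -/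
def Domain (u : ℂ) (R : ℝ) : Set ℂ := {x | R < ‖x‖ ∧ x / u ∈ Complex.slitPlane}

/-- On the domain `S_a` is a continuous square root of `F_a` and `Φ_(a,j)` a primitive of `x^j / (q_a S_a)`. -/
def Primitives {s : ℕ} (F q : Fin s → Polynomial ℤ) (u : ℂ) (R : ℝ) (S : Fin s → ℂ → ℂ) (Φ : Idx F q → ℂ → ℂ) : Prop :=
  ∀ x ∈ Domain u R, (∀ a, ContinuousAt (S a) x ∧ S a x ^ 2 = Polynomial.aeval x (F a)) ∧
    ∀ p : Idx F q, HasDerivAt (Φ p) (x ^ (p.2 : ℕ) / (Polynomial.aeval x (q p.1) * S p.1 x)) x

/-- The numbers `Φ_(a,j)(x)` and `log x`. -/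
noncomputable def number {s : ℕ} {F q : Fin s → Polynomial ℤ} (Φ : Idx F q → ℂ → ℂ) (x : ℂ) : Idx F q ⊕ Unit → ℂ
  | Sum.inl p => Φ p x
  | Sum.inr _ => Complex.log x

/-- Let `F_a`, `q_a` be integral polynomials with positive leading coefficients such that `F_a q_a` is squarefree,
`deg F_a` is odd, `deg F_a + 2 deg q_a ≥ 3` and no `F_a` is proportional to an integral translate of another `F_b`, and
let `Φ` be primitives of the differentials `x^j dx / (q_a √F_a)` on a domain as above. There are numbers `κ`, equal to the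
limits at infinity of the primitives which converge, such that for every finite family `c` of numbers which contains all
the `κ` and `2πi` and all `r`, `m`, `A`, `d`, `δ`, `τ` there is `E` such that for all `H`, all roots `ξ`, `|ξ| ≥ (H + 2)^E`,
of nonzero integral polynomials of degree at most `m` with coefficients at most `|ξ|^A` and all `w_1, …, w_τ ∈ ℂ` there
is a set `T` of at most `τ + 1 + trdeg ℚ(c)` integers with this property: if `n_1, …, n_r` are distinct integers in
`[1, H]` outside `T` such that the `ξ + n_i` are in the domain, `K` is a number field of degree at most `d`, `y` consists of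
nonzero `K`-multiples of the numbers at the `ξ + n_i` plus elements of `K + ∑ K w_j + ∑ K c_j`, and `P` is a polynomial
over `K` of degree at most `δ` with `P(w, c, y) = 0`, then `P(w, c, Y) = 0` identically in `Y`. -/
theorem result {s : ℕ} (F q : Fin s → Polynomial ℤ)
    (hsf : ∀ a, Squarefree ((F a * q a).map (Int.castRingHom ℚ))) (hodd : ∀ a, Odd (F a).natDegree)
    (hdeg : ∀ a, 3 ≤ (F a).natDegree + 2 * (q a).natDegree)
    (hpos : ∀ a, 0 < (F a).leadingCoeff ∧ 0 < (q a).leadingCoeff)
    (hdist : ∀ a b, a ≠ b → ∀ h c₁ c₂ : ℤ, c₁ ≠ 0 → c₂ ≠ 0 →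
      Polynomial.C c₁ * F a ≠ Polynomial.C c₂ * (F b).comp (Polynomial.X + Polynomial.C h))
    (u : ℂ) (hu : u ≠ 0) (R : ℝ) (S : Fin s → ℂ → ℂ) (Φ : Idx F q → ℂ → ℂ) (hΦ : Primitives F q u R S Φ) :
    ∃ κ : Idx F q → ℂ,
      (∀ p : Idx F q, 2 * (p.2 : ℕ) + 2 < (F p.1).natDegree + 2 * (q p.1).natDegree →
        Tendsto (Φ p) (cobounded ℂ ⊓ 𝓟 {x : ℂ | x / u ∈ Complex.slitPlane}) (𝓝 (κ p))) ∧
      ∀ (υ : Type) [Fintype υ] (c : υ → ℂ), Set.range κ ⊆ Set.range c → 2 * Real.pi * Complex.I ∈ Set.range c →
      ∀ r m A d δ τ : ℕ, ∃ E : ℕ, ∀ (H : ℕ) (ξ : ℂ), ((H : ℝ) + 2) ^ E ≤ ‖ξ‖ →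
      (∃ p : Polynomial ℤ, p ≠ 0 ∧ p.natDegree ≤ m ∧ (∀ j, |(p.coeff j : ℝ)| ≤ ‖ξ‖ ^ A) ∧
        Polynomial.aeval ξ p = 0) →
      ∀ w : Fin τ → ℂ, ∃ T : Finset ℕ,
        (T.card : Cardinal) ≤ τ + 1 + Algebra.trdeg ℚ (IntermediateField.adjoin ℚ (Set.range c)) ∧
        ∀ n : Fin r → ℕ, Function.Injective n → (∀ i, 1 ≤ n i ∧ n i ≤ H ∧ n i ∉ T ∧ ξ + n i ∈ Domain u R) →
        ∀ K : IntermediateField ℚ ℂ, FiniteDimensional ℚ K → Module.finrank ℚ K ≤ d →
        ∀ y : Fin r × (Idx F q ⊕ Unit) → ℂ,
          (∀ p, ∃ b : K, b ≠ 0 ∧ y p - b * number Φ (ξ + n p.1) p.2 ∈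
            Submodule.span K (insert 1 (Set.range (Sum.elim w c)))) →
        ∀ P : MvPolynomial ((Fin τ ⊕ υ) ⊕ Fin r × (Idx F q ⊕ Unit)) K, P.totalDegree ≤ δ →
          MvPolynomial.aeval (Sum.elim (Sum.elim w c) y) P = 0 →
          MvPolynomial.aeval (Sum.elim (fun j => MvPolynomial.C (Sum.elim w c j)) MvPolynomial.X) P =
            (0 : MvPolynomial (Fin r × (Idx F q ⊕ Unit)) ℂ) := by
  have hG : ∀ a, Pool.Agent.Y916.Sa.GoodP (F a) (q a) := by
    intro a
    have h := hsf a
    rw [Polynomial.map_mul, squarefree_mul_iff] at h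
    exact ⟨h.2.1, hodd a, (hpos a).1, h.2.2, (hpos a).2, h.1.isCoprime, hdeg a⟩
  have hx : ∀ (x : ℂ) i, number Φ x i = Pool.Agent.Y916.Sl.xP F q Φ x i := by
    rintro x (p | w) <;> rfl
  simp only [hx]
  obtain ⟨κ, ⟨R', hκ⟩, h⟩ := Pool.Agent.Y916.Sl.windowsN Pool.Agent.Y916.Sl.tV Pool.Agent.Y916.Sl.tQ
    Pool.Agent.Y916.Sl.tP F q hG (fun a b hab h c₁ c₂ => hdist a b hab h c₁ c₂) hu (R := R) (S := S) (Φ := Φ)
    (fun x hx1 hx2 => hΦ x ⟨hx1, hx2⟩)
  refine ⟨κ, fun p hp => Pool.Agent.Y916.Sl.limS hG hκ p hp, ?_⟩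
  intro υ _ c hc hpi r m A d δ τ
  obtain ⟨E, hE⟩ := h υ c hc hpi r m A d δ τ
  refine ⟨E, fun H ξ hξ hp w => ?_⟩
  obtain ⟨T, hT, h1⟩ := hE H ξ hξ hp w
  exact ⟨T, hT, fun n hn hnb => h1 n hn hnb⟩

end Pool.Agent.Results.MP_4b482e_nt.AlgebraicWindows
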