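import Pool.Agent.Y627.PL.Main

/-!
# Exponentials of complex polynomials in logarithms of algebraic numbers

For the torus `G = G_m^s` the problem asks whether, for nonzero complex numbers `τ_1, …, τ_s`, the field generated over
`Q̄ (2πi)` by the `τ_i` and the `log τ_i` has transcendence degree at least the dimension `t` of the `ℚ`-space spanned by
the `log τ_i` modulo `2πi ℚ`. Let `k` be a number field in `ℂ`, let `x_1, …, x_n` be elements of `k`, not in
`(-∞, 0]`, and let `Q_(j 1), …, Q_(j M)` be complex polynomials in one variable `s` such that for every `j` no nontrivial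
integer combination of `s, Q_(j 1), …, Q_(j M)` is constant. Take for the `τ_i` the numbers `x_j` and
`exp (Q_(j i) (log x_j))`; for instance `x ^ (√2)`, `x ^ i`, `x ^ (log x)`, `x ^ (i (log x) ^ 2)`, …. If the coefficients
of the polynomials are algebraic and the `n (M + 1)` logarithms `log x_j`, `Q_(j i) (log x_j)` are linearly independent
over `ℚ` modulo `2πi ℚ`, the `n (M + 1)` numbers `log x_j` and `exp (Q_(j i) (log x_j))` should be algebraically
independent over `Q̄ (π)`.

We prove that the `n`-tuples `x` of height at most `T`, with the `x_j` in compact subsets of the plane without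
`(-∞, 0]`, for which these numbers and `π` satisfy a relation (even an approximate one) of degree at most `d` with
coefficients in `k` of height at most `T ^ A` lie on at most `C T ^ ε` hypersurfaces of degree at most `D`. An earlier
result of this pool (`PolynomialsInLogs`) had, for positive rational `x_j`, real polynomials and integer coefficients, the
bound `C T ^ (2 (n - 1) + β)`, `β > 2 - 2 / ((d + 1)^((M + 1) n + 1) + 1)`, for the number of the exceptional tuples;
here `ε` replaces `β`.

Proof: the general theorem of helper124 in the form of helper771 (`Pool.Agent.Y771.KF.stdK`) reduces this to the algebraic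
independence of the functions `log z`, `exp (Q_i (log z))` over `ℂ (z)`. With `z = exp s` a relation becomes
`∑ R_p (s) exp (E_p (s)) = 0` with polynomials `E_p` which differ by non-constant polynomials, and by differentiation the
number of terms is reduced (`Pool/Agent/Y627/PL/Exp.lean`).
-/

set_option autoImplicit false

namespace Pool.Agent.Results.MP_4b482e_nt.ComplexPolynomialsInLogs

/-- The `n (M + 1) + 1` numbers `π`, `log x_j` and `exp (Q_(j i) (log x_j))` (principal values), where `x_j` is read as a
complex number by the embedding `σ`. -/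
noncomputable def numbers {k : Type} [Field k] (σ : k →+* ℂ) {M n : ℕ} (Q : Fin n → Fin M → Polynomial ℂ)
    (x : Fin n → k) : Option (Fin n × Option (Fin M)) → ℂ
  | none => (Real.pi : ℂ)
  | some (j, none) => Complex.log (σ (x j))
  | some (j, some i) => Complex.exp ((Q j i).eval (Complex.log (σ (x j))))

/-- The `n`-tuples `x` of elements of `k`, of height at most `T` and with `σ x_j ∈ K_j`, for which some nonzero
polynomial with coefficients in `k` of height at most `T ^ A`, of degree at most `d` in each variable, takes at the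
`n (M + 1) + 1` numbers a value of absolute value at most `T ^ (-B)`. -/
def Exceptional {k : Type} [Field k] [NumberField k] (σ : k →+* ℂ) {M n : ℕ} (d : ℕ)
    (Q : Fin n → Fin M → Polynomial ℂ) (K : Fin n → Set ℂ) (A B T : ℝ) : Set (Fin n → k) :=
  {x | (∀ j, σ (x j) ∈ K j ∧ Height.mulHeight₁ (x j) ≤ T) ∧
    ∃ P : MvPolynomial (Option (Fin n × Option (Fin M))) k, P ≠ 0 ∧ (∀ i, P.degreeOf i ≤ d) ∧
      (∀ e, Height.mulHeight₁ (P.coeff e) ≤ T ^ A) ∧
      ‖MvPolynomial.eval₂ σ (numbers σ Q x) P‖ ≤ T ^ (-B)}

/-- Let `k` be a number field with an embedding `σ` in `ℂ`, `n ≥ 1`, let `K_1, …, K_n` be compact subsets of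
`ℂ \ (-∞, 0]`, and let `Q_(j i)` (`j ≤ n`, `i ≤ M`) be complex polynomials in `s` such that, for every `j`,
`c_0 s + ∑ c_i Q_(j i)` is not constant for integers `c_0, …, c_M` not all zero. For all `d`, `A` and `ε > 0` there are
`D`, `B` and `C` such that for all `T ≥ 1` the exceptional `n`-tuples are zeros of at most `C T ^ ε` nonzero polynomials
of degree at most `D`, and their number is at most `C T ^ ε N (T) ^ (n - 1)`, where `N (T)` is the number of elements of
`k` of height at most `T`. -/
theorem result (k : Type) [Field k] [NumberField k] (σ : k →+* ℂ) (M n d : ℕ) (hn : 1 ≤ n)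
    (Q : Fin n → Fin M → Polynomial ℂ)
    (hQ : ∀ (j : Fin n) (c0 : ℤ) (c : Fin M → ℤ), (Polynomial.C (c0 : ℂ) * Polynomial.X +
      ∑ i, Polynomial.C (c i : ℂ) * Q j i).natDegree = 0 → c0 = 0 ∧ c = 0)
    (K : Fin n → Set ℂ) (hK : ∀ j, IsCompact (K j)) (hKs : ∀ j, K j ⊆ Complex.slitPlane)
    (A ε : ℝ) (hε : 0 < ε) :
    ∃ (D : ℕ) (B C : ℝ), ∀ T : ℝ, 1 ≤ T →
      (∃ Φ : Finset (MvPolynomial (Fin n) k), (Φ.card : ℝ) ≤ C * T ^ ε ∧ (∀ R ∈ Φ, R ≠ 0 ∧ R.totalDegree ≤ D) ∧
        ∀ x ∈ Exceptional σ d Q K A B T, ∃ R ∈ Φ, MvPolynomial.eval x R = 0) ∧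
      (Exceptional σ d Q K A B T).Finite ∧
      ((Exceptional σ d Q K A B T).ncard : ℝ) ≤
        C * T ^ ε * ({x : k | Height.mulHeight₁ x ≤ T}.ncard : ℝ) ^ (n - 1) := by
  obtain ⟨D, B, C, h⟩ := Pool.Agent.Y627.PL.main σ M n d hn Q hQ K hK hKs A ε hε
  refine ⟨D, B, C, fun T hT => ?_⟩
  have hset : Exceptional σ d Q K A B T = Pool.Agent.Y627.PL.ExcC σ d Q K A B T := by
    have heq : ∀ x : Fin n → k, numbers σ Q x = Pool.Agent.Y627.PL.numC σ Q x := by
      intro x
      funext i
      rcases i with _ | ⟨j, _ | i⟩
      · rfl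
      · rfl
      · rfl
    ext x
    simp only [Exceptional, Pool.Agent.Y627.PL.ExcC, Set.mem_ofPred_eq, heq]
  rw [hset]
  exact h T hT

end Pool.Agent.Results.MP_4b482e_nt.ComplexPolynomialsInLogs
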