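import Pool.Agent.Y92.RB.Main

/-!
# Failure of the relative semi-abelian analogue of Schanuel's conjecture on every CM curve

We work with `g = n = s = 1`.  Let `E = ℂ/Λ : y² = 4x³ - g₂x - g₃` be an elliptic curve over `ℚ̄`
and let `Q ∈ E^*(ℚ̄) = E(ℚ̄)`, `Q ≠ 0`, with elliptic logarithm `q`.  The extension `G` of `E` by
`𝔾ₘ` parametrized by `Q` has the exponential map (Serre)
`exp_G (z, t) = (℘(z) : ℘'(z) : 1 ; r)`, `r = f_q(z) e^t`,
`f_q(z) = σ(z+q)/(σ(z)σ(q)) e^{-ζ(q)z}`.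
The differentials of the third kind on `G` over `ℚ̄` that restrict to `dr/r` on `𝔾ₘ` are
`ξ = dt + c dz = dr/r - (1/2)(y - y_Q)/(x - x_Q) dx/y + c dx/y`, `c ∈ ℚ̄`.

Every elliptic curve with complex multiplication has a nonzero purely imaginary multiplication
`β` (`β Λ ⊆ Λ`, for example `β = α - ᾱ` for any multiplication `α` which is not an integer).
For every elliptic curve `E` over `ℚ̄`, every such `β`, every point `P` of infinite order in
`E(ℚ̄)` and every `ξ`, the inequality of the problem fails for the extension `G` of `E` with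
parameter `Q = β P` and a point `R` of `G(ℚ̄)` above `P`.
-/

open scoped PeriodPair
open Complex (I)

noncomputable section

namespace Pool.Agent.Results.MP_4b482e_nt.EveryCMCurve

open Pool.Agent.Y92.RB

/-- The Weierstrass zeta function `ζ(z) = 1/z + ∑_{l ≠ 0} (1/(z-l) + 1/l + z/l²)` of the lattice
`Λ = L.lattice` (in Lean `1/0 = 0`, so the summand at `l = 0` is `1/z`). -/
def wZeta (L : PeriodPair) (z : ℂ) : ℂ := ∑' l : L.lattice, (1 / (z - l) + 1 / l + z / l ^ 2)

/-- The Weierstrass sigma function `σ(z) = z ∏_{l ≠ 0} (1 - z/l) exp (z/l + (z/l)²/2)`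
(the factor at `l = 0` is `1` in Lean). -/
def wSigma (L : PeriodPair) (z : ℂ) : ℂ :=
  z * ∏' l : L.lattice, ((1 - z / l) * Complex.exp (z / l + (z / l) ^ 2 / 2))

/-- The quasi-period `η(l) = ζ(z + l) - ζ(z)` (it does not depend on `z ∉ Λ`, see
`wZeta_add_period`; here `z = ω₁/2`). -/
def quasiPeriod (L : PeriodPair) (l : ℂ) : ℂ := wZeta L (L.ω₁ / 2 + l) - wZeta L (L.ω₁ / 2)

/-- Serre's function `f_q(z) = σ(z+q)/(σ(z)σ(q)) e^{-ζ(q) z}`. -/
def serre (L : PeriodPair) (q z : ℂ) : ℂ :=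
  wSigma L (z + q) / (wSigma L z * wSigma L q) * Complex.exp (-(wZeta L q * z))

/-- The data of the problem for `g = n = s = 1` (with `Q ≠ 0` and `R` outside the polar locus
`z ∈ {0, -q}` of the chart), in Weierstrass coordinates.
* `L` : the period lattice `Λ = ℤω₁ + ℤω₂` of `dx/y` on `E : y² = 4x³ - g₂x - g₃`;
* `q` : an elliptic logarithm of `Q`;
* `c` : the choice of the invariant differential `ξ = dt + c dz` of `G`;
* `p` : an elliptic logarithm of `P = π(R)`;
* `T = ∫_O^R ξ`.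
The curve `E`, the point `Q` and the differential `ξ` are defined over `ℚ̄`. -/
structure Datum where
  L : PeriodPair
  q : ℂ
  c : ℂ
  p : ℂ
  T : ℂ
  g₂_alg : IsAlgebraic ℚ L.g₂
  g₃_alg : IsAlgebraic ℚ L.g₃
  q_notMem : q ∉ L.lattice
  xQ_alg : IsAlgebraic ℚ (℘[L] q)
  yQ_alg : IsAlgebraic ℚ (℘'[L] q)
  c_alg : IsAlgebraic ℚ c
  p_notMem : p ∉ L.lattice
  p_add_q_notMem : p + q ∉ L.lattice

namespace Datum

variable (D : Datum)

/-- the `𝔾ₘ`-coordinate `r = f_q(p) e^t`, `t = T - c p`, of the point `R = exp_G (p, t)` -/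
def fibreCoord : ℂ := serre D.L D.q D.p * Complex.exp (D.T - D.c * D.p)

/-- the period `∫ ξ = l ζ(q) - η(l) q + c l` of `ξ` along a lift to `G` of the loop `l ∈ Λ`
(well defined modulo `2πiℤ`; cf. `serre_add_period`) -/
def xiPeriod (l : ℂ) : ℂ := l * wZeta D.L D.q - quasiPeriod D.L l * D.q + D.c * l

/-- the period set `Ω_G` -/
def Omega : Set ℂ :=
  {D.L.ω₁, D.L.ω₂, quasiPeriod D.L D.L.ω₁, quasiPeriod D.L D.L.ω₂, D.xiPeriod D.L.ω₁,
    D.xiPeriod D.L.ω₂, 2 * Real.pi * I}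

/-- the field `ℚ̄(Ω_G)` -/
def baseField : IntermediateField ℚ ℂ :=
  IntermediateField.adjoin ℚ ({x : ℂ | IsAlgebraic ℚ x} ∪ D.Omega)

/-- the field `F = ℚ̄(Ω_G, R, log_G R)`; the coordinates of `R` are `x(P), y(P), r` and the
components of its generalized logarithm are `p = ∫ dx/y`, `ζ(p)` and `T = ∫ ξ` -/
def bigField : IntermediateField D.baseField ℂ :=
  IntermediateField.adjoin D.baseField
    {℘[D.L] D.p, ℘'[D.L] D.p, D.fibreCoord, D.p, wZeta D.L D.p, D.T}

/-- the transcendence degree of `F` over `ℚ̄(Ω_G)` -/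
def trdeg : Cardinal := Algebra.trdeg D.baseField D.bigField

/-- the `ℚ`-span `V` of `2πi` and of the periods of `ξ` -/
def V : Submodule ℚ ℂ :=
  Submodule.span ℚ {2 * Real.pi * I, D.xiPeriod D.L.ω₁, D.xiPeriod D.L.ω₂}

/-- `t`, the dimension of the `ℚ`-span of `∫_O^R ξ` in `ℂ/V` -/
def t : ℕ := Module.finrank ℚ (Submodule.span ℚ {D.V.mkQ D.T})

open Classical in
/-- `dim B_Q`: it is `0` if `α P = β Q` for some endomorphisms `α ≠ 0`, `β` of `E`,
and `1` otherwise. -/
def dimBQ : ℕ :=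
  if ∃ α β : ℂ, α ≠ 0 ∧ (∀ l ∈ D.L.lattice, α * l ∈ D.L.lattice) ∧
    (∀ l ∈ D.L.lattice, β * l ∈ D.L.lattice) ∧ α * D.p - β * D.q ∈ D.L.lattice then 0 else 1

end Datum

/-! ### Sanity checks for the definitions -/

/-- `σ'/σ = ζ` -/
theorem hasDerivAt_wSigma (L : PeriodPair) {z : ℂ} (hz : z ∉ L.lattice) :
    HasDerivAt (wSigma L) (wZeta L z * wSigma L z) z := H667R3.hasDerivAt_sigma L hz

/-- `ζ' = -℘` -/
theorem hasDerivAt_wZeta (L : PeriodPair) {z : ℂ} (hz : z ∉ L.lattice) :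
    HasDerivAt (wZeta L) (-℘[L] z) z := H667R3.hasDerivAt_zeta L hz

/-- `ζ(z + l) = ζ(z) + η(l)` -/
theorem wZeta_add_period (L : PeriodPair) {z l : ℂ} (hz : z ∉ L.lattice) (hl : l ∈ L.lattice) :
    wZeta L (z + l) = wZeta L z + quasiPeriod L l := H667R3.zeta_add_coe L hz hl

/-- `f_q(z + l) = e^{η(l) q - ζ(q) l} f_q(z)` : the periods of `dt` are `ζ(q) l - η(l) q`. -/
theorem serre_add_period (L : PeriodPair) {l : ℂ} (hl : l ∈ L.lattice) (q z : ℂ) :
    serre L q (z + l) = Complex.exp (quasiPeriod L l * q - wZeta L q * l) * serre L q z :=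
  H667R3.serreF_add_coe L hl q z

/-- `f_q'/f_q = (1/2) (℘'(z) - ℘'(q))/(℘(z) - ℘(q))`, hence
`dt = dr/r - (1/2) (y - y_Q)/(x - x_Q) dx/y` -/
theorem hasDerivAt_serre (L : PeriodPair) {q z : ℂ} (hz : z ∉ L.lattice) (hq : q ∉ L.lattice)
    (h1 : z + q ∉ L.lattice) (h2 : z - q ∉ L.lattice) :
    HasDerivAt (serre L q)
      (serre L q z * ((℘'[L] z - ℘'[L] q) / (2 * (℘[L] z - ℘[L] q)))) z := by
  have h := H667R3.hasDerivAt_Fc L (c := 0) hz hq h1 h2
  have e : H667R3.Fc L q 0 = serre L q := by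
    ext x; simp [H667R3.Fc]; rfl
  rw [e] at h
  refine h.congr_deriv ?_
  rw [sub_zero]
  congr 1
  rw [mul_comm (2 : ℂ), ← div_div, div_eq_mul_inv (℘'[L] z - ℘'[L] q)]

/-- The counterexample attached to a multiplication `β` and a point `p`. -/
theorem main {L : PeriodPair} (h2 : IsAlgebraic ℚ L.g₂) (h3 : IsAlgebraic ℚ L.g₃) {β : ℂ}
    (hβ : β ≠ 0) (hre : β.re = 0) (hm : ∀ l ∈ L.lattice, β * l ∈ L.lattice) {s : ℂ}
    (hs : IsAlgebraic ℚ s) (hsR : ∀ p, β * p ∉ L.lattice → (1 + β) * p ∉ L.lattice →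
      IsAlgebraic ℚ (℘[L] p) →
      IsAlgebraic ℚ (H667R3.serreF L (β * p) p *
        Complex.exp (p * H667R3.zeta L (β * p) + s * p ^ 2))) {p : ℂ}
    (hnt : ∀ n : ℕ, 0 < n → n * p ∉ L.lattice) (hP : IsAlgebraic ℚ (℘[L] p)) {c : ℂ}
    (hc : IsAlgebraic ℚ c) :
    ∃ D : Datum, D.L = L ∧ D.q = β * p ∧ D.p = p ∧ D.c = c ∧
      D.T = p * wZeta L (β * p) + s * p ^ 2 + c * p ∧ IsAlgebraic ℚ D.fibreCoord ∧
      D.trdeg = 0 ∧ D.dimBQ = 0 ∧ D.t = 1 ∧
      ¬ ((2 * D.dimBQ + D.t : ℕ) : Cardinal) ≤ D.trdeg := by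
  have hp : p ∉ L.lattice := by simpa using hnt 1 one_pos
  have hq : β * p ∉ L.lattice := by simpa using (nontors hβ hre hm hnt 0).1
  have hpq : p + β * p ∉ L.lattice := by simpa using (nontors hβ hre hm hnt 1).1
  have hpq' : (1 + β) * p ∉ L.lattice := by
    have e : (1 + β) * p = p + β * p := by ring
    rw [e]; exact hpq
  have hr := hsR p hq hpq' hP
  have hPq := alg_wp_mul h2 h3 hm hq hP
  have hβa : IsAlgebraic ℚ β := Pool.Agent.W245.EB.alg_of_mul hm
  let D : Datum :=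
    { L := L
      q := β * p
      c := c
      p := p
      T := p * wZeta L (β * p) + s * p ^ 2 + c * p
      g₂_alg := h2
      g₃_alg := h3
      q_notMem := hq
      xQ_alg := hPq
      yQ_alg := alg_wp' h2 h3 hq hPq
      c_alg := hc
      p_notMem := hp
      p_add_q_notMem := hpq }
  have hfib : D.fibreCoord = H667R3.serreF L (β * p) p *
      Complex.exp (p * H667R3.zeta L (β * p) + s * p ^ 2) := by
    show serre L (β * p) p *
      Complex.exp (p * wZeta L (β * p) + s * p ^ 2 + c * p - c * p) = _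
    rw [add_sub_cancel_right]
    rfl
  have hfibalg : IsAlgebraic ℚ D.fibreCoord := by rw [hfib]; exact hr
  -- everything lies in the base field
  set K := D.baseField with hK
  have halgK : ∀ x : ℂ, IsAlgebraic ℚ x → x ∈ K := fun x hx =>
    IntermediateField.subset_adjoin ℚ _ (Or.inl hx)
  have hΩK : ∀ x ∈ D.Omega, x ∈ K := fun x hx =>
    IntermediateField.subset_adjoin ℚ _ (Or.inr hx)
  have k1 : L.ω₁ ∈ K := hΩK _ (Or.inl rfl)
  have k2 : L.ω₂ ∈ K := hΩK _ (Or.inr (Or.inl rfl))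
  have k3 : quasiPeriod L L.ω₁ ∈ K := hΩK _ (Or.inr (Or.inr (Or.inl rfl)))
  have k4 : quasiPeriod L L.ω₂ ∈ K := hΩK _ (Or.inr (Or.inr (Or.inr (Or.inl rfl))))
  have k5 : D.xiPeriod L.ω₁ ∈ K := hΩK _ (Or.inr (Or.inr (Or.inr (Or.inr (Or.inl rfl)))))
  have k6 : D.xiPeriod L.ω₂ ∈ K :=
    hΩK _ (Or.inr (Or.inr (Or.inr (Or.inr (Or.inr (Or.inl rfl))))))
  have kc : c ∈ K := halgK _ hc
  have kβ : β ∈ K := halgK _ hβa
  obtain ⟨kζq, kq⟩ := solve_mem K k1 k2 k3 k4 kc (X := wZeta L (β * p)) (q := β * p) k5 k6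
  have kp : p ∈ K := by
    have : p = β * p / β := by field_simp
    rw [this]
    exact div_mem kq kβ
  have kζ : wZeta L p ∈ K := zeta_mem h2 h3 hβ hm K halgK hp hq hP kp kζq
  have kT : D.T ∈ K :=
    add_mem (add_mem (mul_mem kp kζq) (mul_mem (halgK _ hs) (pow_mem kp 2))) (mul_mem kc kp)
  have htr : D.trdeg = 0 := by
    have hgen : ∀ x ∈ ({℘[D.L] D.p, ℘'[D.L] D.p, D.fibreCoord, D.p, wZeta D.L D.p, D.T} : Set ℂ),
        x ∈ K := by
      intro x hx
      simp only [Set.mem_insert_iff, Set.mem_singleton_iff] at hx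
      rcases hx with rfl | rfl | rfl | rfl | rfl | rfl
      · exact halgK _ hP
      · exact halgK _ (alg_wp' h2 h3 hp hP)
      · exact halgK _ hfibalg
      · exact kp
      · exact kζ
      · exact kT
    have : Algebra.IsAlgebraic D.baseField D.bigField := by
      apply IntermediateField.isAlgebraic_adjoin
      intro x hx
      have hxK := hgen x hx
      exact isIntegral_algebraMap (R := D.baseField) (A := ℂ) (x := ⟨x, hxK⟩)
    exact trdeg_eq_zero
  have hB : D.dimBQ = 0 := by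
    unfold Datum.dimBQ
    rw [if_pos]
    refine ⟨β, 1, hβ, hm, fun l hl => by rwa [one_mul], ?_⟩
    show β * p - 1 * (β * p) ∈ L.lattice
    rw [one_mul, sub_self]; exact zero_mem _
  have hTV : D.T ∉ D.V := by
    intro h
    rw [Datum.V, Submodule.mem_span_insert] at h
    obtain ⟨a', y, hy, h⟩ := h
    rw [Submodule.mem_span_pair] at hy
    obtain ⟨b₁, b₂, hy⟩ := hy
    apply notMem_V h2 h3 hβ hre hm hnt hP hc hr
    refine ⟨a', b₁, b₂, ?_⟩
    have hT : D.T = p * H667R3.zeta L (β * p) + s * p ^ 2 + c * p := rfl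
    rw [← hT, h, ← hy]
    have hx1 : D.xiPeriod D.L.ω₁ = H667R3.lam L (β * p) c L.ω₁ := rfl
    have hx2 : D.xiPeriod D.L.ω₂ = H667R3.lam L (β * p) c L.ω₂ := rfl
    rw [hx1, hx2]
    simp only [Rat.smul_def]
    ring
  have ht : D.t = 1 := by
    unfold Datum.t
    apply finrank_span_singleton
    intro h
    rw [Submodule.mkQ_apply, Submodule.Quotient.mk_eq_zero] at h
    exact hTV h
  refine ⟨D, rfl, rfl, rfl, rfl, rfl, hfibalg, htr, hB, ht, ?_⟩
  rw [htr, hB, ht]
  simp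

/-- **Every CM curve and every point of infinite order give counterexamples.**

(1) If the lattice has a multiplication `α` which is not real, then `β = α - ᾱ` is a nonzero purely
imaginary multiplication.

(2) For every lattice `L` with algebraic invariants and every nonzero purely imaginary
multiplication `β` of `L` there is an algebraic number `s` such that for every algebraic point of
infinite order, with elliptic logarithm `p`, and every algebraic `c` the data `q = β p`,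
`T = p ζ(β p) + s p² + c p` satisfy: the fibre coordinate `r` of `R` is algebraic (so `R` is an
algebraic point), `trdeg = 0`, `dim B_Q = 0`, `t = 1`, and the inequality
`trdeg ≥ 2 dim B_Q + t` fails. -/
theorem result :
    (∀ (L : PeriodPair) (α : ℂ), α.im ≠ 0 → (∀ l ∈ L.lattice, α * l ∈ L.lattice) →
      α - (starRingEnd ℂ) α ≠ 0 ∧ (α - (starRingEnd ℂ) α).re = 0 ∧
        ∀ l ∈ L.lattice, (α - (starRingEnd ℂ) α) * l ∈ L.lattice) ∧
    ∀ (L : PeriodPair) (β : ℂ), IsAlgebraic ℚ L.g₂ → IsAlgebraic ℚ L.g₃ → β ≠ 0 → β.re = 0 →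
      (∀ l ∈ L.lattice, β * l ∈ L.lattice) →
      ∃ s : ℂ, IsAlgebraic ℚ s ∧ ∀ p : ℂ, (∀ n : ℕ, 0 < n → n * p ∉ L.lattice) →
        IsAlgebraic ℚ (℘[L] p) → ∀ c : ℂ, IsAlgebraic ℚ c →
        ∃ D : Datum, D.L = L ∧ D.q = β * p ∧ D.p = p ∧ D.c = c ∧
          D.T = p * wZeta L (β * p) + s * p ^ 2 + c * p ∧ IsAlgebraic ℚ D.fibreCoord ∧
          D.trdeg = 0 ∧ D.dimBQ = 0 ∧ D.t = 1 ∧
          ¬ ((2 * D.dimBQ + D.t : ℕ) : Cardinal) ≤ D.trdeg := by
  refine ⟨fun L α him hα => ?_, fun L β h2 h3 hβ hre hm => ?_⟩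
  · have hα0 : α ≠ 0 := by
      rintro rfl
      exact him (by simp)
    obtain ⟨T, Δ, hΔ, h⟩ := Pool.Agent.W245.EB.exists_det hα0 hα
    have hconj : (starRingEnd ℂ) α = T - α := by
      have h1 := congrArg Complex.im h
      have h3 : α.re + α.re = T := by
        simp only [Complex.mul_im, Complex.sub_re, Complex.sub_im, Complex.intCast_re,
          Complex.intCast_im] at h1
        have h4 : α.im * ((T : ℝ) - (α.re + α.re)) = 0 := by linarith
        have h5 := (mul_eq_zero.1 h4).resolve_left him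
        linarith
      apply Complex.ext
      · simp only [Complex.conj_re, Complex.sub_re, Complex.intCast_re]
        linarith
      · simp only [Complex.conj_im, Complex.sub_im, Complex.intCast_im]
        ring
    refine ⟨?_, ?_, ?_⟩
    · intro h0
      have := congrArg Complex.im h0
      simp only [Complex.sub_im, Complex.conj_im, Complex.zero_im] at this
      apply him
      linarith
    · simp
    · intro l hl
      have h1 := sub_mem (hα l hl) (sub_mem (H667R3.intCast_mul_mem L hl T) (hα l hl))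
      rw [hconj]
      convert h1 using 1
      ring
  · obtain ⟨s, hs, hsR⟩ := ribet_alg h2 h3 hβ hre hm
    exact ⟨s, hs, fun p hnt hP c hc => main h2 h3 hβ hre hm hs hsR hnt hP hc⟩

end Pool.Agent.Results.MP_4b482e_nt.EveryCMCurve
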