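import Pool.Agent.Y916.Sch.EllV

/-!
# The relative semi-abelian inequality in bounded degree for the translates of every point of `E^n × G_m^s` in a window

Let `E : y² = 4 x³ - g₂ x - g₃` be an elliptic curve with rational `g₂`, `g₃` and lattice `Λ`, `G = E^n × G_m^s`, and let
`(z, y)` be any point of the Lie algebra `ℂⁿ × ℂˢ` of `G`. We translate `(z, y)` by logarithms of the algebraic points of `G`
given by `n + s` distinct integers `g_1, ..., g_(n+s)` in `[1, H]`: `p_i = z_i + (a number with ℘ = ξ + g_i)`,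
`t_l = y_l + log (ξ + g_(n+l))`, where `ξ` is an arbitrary algebraic number of degree at most `m`, of height at most `|ξ|^A`
and of absolute value at least `(H + 2)^E₀`. The numbers `p_i`, `ζ(p_i)`, `t_l` are the components of a generalized logarithm
of the point `R = exp_G(p, t)` of `G(ℂ)`.

The theorem: except for at most `5 n + 2 s + q + 4 + ρ` of the integers `g`, `ρ` the transcendence degree of the field
generated by the period set, every polynomial relation of bounded degree over number fields of bounded degree, of any height,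
between the periods and quasi-periods and `2 π i`, arbitrary constants `w_1, ..., w_q`, the numbers `p_i`, `ζ(p_i)`, `t_l` and
the coordinates `℘(p_i)`, `℘'(p_i)`, `exp(t_l)` of `R` is an identity in the `2 n + s` numbers `p_i`, `ζ(p_i)`, `t_l`. So
`R` satisfies the relative inequality (over the field generated by the periods) in bounded degree, with the largest possible
right-hand side `2 n + s`, and the logarithms are independent even over the coordinates of `R`. The number `E₀` does not
depend on `(z, y)` and `w`.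

The proof uses the theorem on elliptic logarithms and logarithms in windows (`MP_c9768e_nt.AlgebraicWindows`; parts by
helper333, helper71, helper261, helper419, helper113, helper787, helper708, helper921) and the addition theorem (in a
starting file, `Pool.Agent.H667R3.W5`).
-/

set_option autoImplicit false

open scoped PeriodPair

namespace Pool.Agent.Results.MP_4b482e_nt.TranslatesInWindows

/-- The Weierstrass zeta function `ζ(z) = ∑ (1/(z-l) + 1/l + z/l²)`, the sum over the lattice (the summand of `l = 0` is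
`1/z`, since `1/0 = 0` in Lean). -/
noncomputable def zeta (Λ : PeriodPair) (z : ℂ) : ℂ := ∑' l : Λ.lattice, (1 / (z - l) + 1 / l + z / l ^ 2)

/-- The periods `ω₁`, `ω₂`, the half quasi-periods `ζ(ω₁/2)`, `ζ(ω₂/2)`, and `2πi`. -/
noncomputable def periods (Λ : PeriodPair) : Fin 5 → ℂ :=
  ![Λ.ω₁, Λ.ω₂, zeta Λ (Λ.ω₁ / 2), zeta Λ (Λ.ω₂ / 2), 2 * Real.pi * Complex.I]

/-- The numbers `p_i`, `ζ(p_i)` and `t_l`. -/
noncomputable def logarithms (Λ : PeriodPair) {n s : ℕ} (p : Fin n → ℂ) (t : Fin s → ℂ) : Fin n × Fin 2 ⊕ Fin s → ℂ :=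
  Sum.elim (fun a => ![p a.1, zeta Λ (p a.1)] a.2) t

/-- The numbers `℘(p_i)`, `℘'(p_i)` and `exp(t_l)`. -/
noncomputable def points (Λ : PeriodPair) {n s : ℕ} (p : Fin n → ℂ) (t : Fin s → ℂ) : Fin n × Fin 2 ⊕ Fin s → ℂ :=
  Sum.elim (fun a => ![℘[Λ] (p a.1), ℘'[Λ] (p a.1)] a.2) fun l => Complex.exp (t l)

/-- Every polynomial relation of degree `≤ δ` over a number field of degree `≤ d` between the constants `w`, the
`logarithms` and the `points` of `(p, t)` is an identity in the logarithms. -/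
def FreeOverPoints (Λ : PeriodPair) (δ d : ℕ) {υ : Type} {n s : ℕ} (w : υ → ℂ) (p : Fin n → ℂ) (t : Fin s → ℂ) : Prop :=
  ∀ L : IntermediateField ℚ ℂ, FiniteDimensional ℚ L → Module.finrank ℚ L ≤ d →
  ∀ P : MvPolynomial (υ ⊕ ((Fin n × Fin 2 ⊕ Fin s) ⊕ (Fin n × Fin 2 ⊕ Fin s))) L, P.totalDegree ≤ δ →
  MvPolynomial.aeval (Sum.elim w (Sum.elim (logarithms Λ p t) (points Λ p t))) P = 0 →
  ∀ v : Fin n × Fin 2 ⊕ Fin s → ℂ, MvPolynomial.aeval (Sum.elim w (Sum.elim v (points Λ p t))) P = 0

/-- `(p, t)` is the sum of `(z, y)` and a logarithm of the point of `E^n × G_m^s` with the coordinates `(α_i, ±β_i)`,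
`i = 1..n`, and `α_(n+l)`, `l = 1..s`; no `p_i` is in the lattice. -/
def IsTranslate (Λ : PeriodPair) {n s : ℕ} (z : Fin n → ℂ) (y : Fin s → ℂ) (α : Fin (n + s) → ℂ) (p : Fin n → ℂ)
    (t : Fin s → ℂ) : Prop :=
  (∀ i, p i ∉ Λ.lattice ∧ p i - z i ∉ Λ.lattice ∧ ℘[Λ] (p i - z i) = α (Fin.castAdd s i)) ∧
    ∀ l, Complex.exp (t l - y l) = α (Fin.natAdd n l)

/-- Let `Λ` be a lattice with rational invariants. For all `n`, `s`, `q`, `m`, `A`, `δ`, `d` there is `E` such that for all
`H`, all complex numbers `ξ` with `|ξ| ≥ (H + 2)^E` which are roots of a nonzero integral polynomial of degree at most `m`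
with coefficients at most `|ξ|^A`, all `w_1, ..., w_q` and all `(z, y)` in `ℂⁿ × ℂˢ` there is a set `S` of at most
`5 n + 2 s + q + 4 + ρ` integers, `ρ` the transcendence degree of the field generated by the `periods`, such that for all
distinct integers `g_1, ..., g_(n+s)` in `[1, H]` outside `S` all translates of `(z, y)` by logarithms of the point given by
`α = ξ + g` are free over their points, `w` and the periods. -/
theorem result (Λ : PeriodPair) (a b : ℚ) (ha : Λ.g₂ = a) (hb : Λ.g₃ = b) (n s q m A δ d : ℕ) :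
    ∃ E : ℕ, ∀ (H : ℕ) (ξ : ℂ), ((H : ℝ) + 2) ^ E ≤ ‖ξ‖ →
      (∃ p : Polynomial ℤ, p ≠ 0 ∧ p.natDegree ≤ m ∧ (∀ j, |(p.coeff j : ℝ)| ≤ ‖ξ‖ ^ A) ∧
        Polynomial.aeval ξ p = 0) →
      ∀ (w : Fin q → ℂ) (z : Fin n → ℂ) (y : Fin s → ℂ), ∃ S : Finset ℕ,
      (S.card : Cardinal) ≤ ((5 * n + 2 * s + q + 4 : ℕ) : Cardinal) +
        Algebra.trdeg ℚ (IntermediateField.adjoin ℚ (Set.range (periods Λ))) ∧
      ∀ g : Fin (n + s) → ℕ, Function.Injective g → (∀ i, 1 ≤ g i ∧ g i ≤ H ∧ g i ∉ S) →
      ∀ (p : Fin n → ℂ) (t : Fin s → ℂ), IsTranslate Λ z y (fun i => ξ + g i) p t →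
      FreeOverPoints Λ δ d (Sum.elim w (periods Λ)) p t := by
  obtain ⟨E, h⟩ := Pool.Agent.Y916.Sch.winV Λ a b ha hb n s q m A δ d
  refine ⟨E, fun H ξ h1 h2 w z y => ?_⟩
  obtain ⟨S, hS, hwin⟩ := h H ξ h1 h2 w z y
  refine ⟨S, hS, fun g hinj hg p t hpt => ?_⟩
  by_contra hfr
  exact hwin g hinj hg ⟨p, t, hpt.1, hpt.2, hfr⟩

end Pool.Agent.Results.MP_4b482e_nt.TranslatesInWindows
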